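import Pool.Agent.L0h17.CP.Res
import Pool.Agent.L0h17.KU.Ci
import Pool.Agent.W619.TW.CP

/-!
The inequality of Campana and Peternell and covering families.
-/

set_option autoImplicit false
set_option linter.overlappingInstances false
set_option linter.unusedSectionVars false

open FF IntermediateField Pool.Agent.W619.PQ Pool.Agent.W619.PL Pool.Agent.W619.TW
  Pool.Agent.W603.LV Pool.Agent.Y172
open Pool.Agent.W602.GT (Divisorial RegAt IsPluri DerReg)
open Pool.Agent.L0h17.TR (KodR Iit iit_down kod_mono)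
open Pool.Agent.L0h17.IT (alg_fin trdeg_over bc_down iit_of_kod kod_of_iit)
open Pool.Agent.L0h17.KU (Dat transfer setup num_prod neg_prod neg_down numLe_iff)
open Pool.Agent.L0h17.DN (OrdAt geQ_int)

namespace Pool.Agent.L0h17.CP

/-- the inequality of Campana and Peternell for a variety -/
def CPk (k L : Type) [Field k] [Field L] [Algebra k L] (n : ℕ) : Prop :=
  ∀ (r : ℕ) (α : Place k L → ℤ) (h : ℕ), 1 ≤ r → Psr k L n r α → KapA k L n α h → KodR k L n h

/-- abundance: the Kodaira dimension is equal to the numerical dimension -/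
def Abk (k L : Type) [Field k] [Field L] [Algebra k L] (n : ℕ) : Prop :=
  NumNeg k L n (fun _ => False) ∨ ∃ h, KodR k L n h ∧ NumLe k L n (fun _ => False) h

section

variable {k L : Type} [Field k] [Field L] [Algebra k L] {n : ℕ}

theorem psr_tw {r : ℕ} {α : Place k L → ℤ} (h : Psr k L n r α) :
    IsPsefRest k L n (fun _ => False) r α := by
  obtain ⟨S, hS⟩ := h
  refine ⟨S, fun j hj => ?_⟩
  obtain ⟨β, h1, h2, h3⟩ := hS j hj
  exact ⟨β, h1, h2, fun v hv _ D hD => h3 v hv D hD, fun v hv hB => hB.elim⟩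

theorem kapa_tw {α : Place k L → ℤ} {h : ℕ} (hA : KapA k L n α h) : DivKodGe k L n α h := by
  classical
  obtain ⟨m, hm, f, hf0, hf, hind⟩ := hA
  refine ⟨(h + 1) * m, Nat.mul_pos (Nat.succ_pos h) hm, fun j hj => ?_⟩
  have hsum : ∀ e : Fin h → Fin j, ∑ i, (e i : ℕ) ≤ (h + 1) * j := by
    intro e
    calc ∑ i, (e i : ℕ) ≤ ∑ _i : Fin h, j := Finset.sum_le_sum fun i _ => (e i).2.le
      _ = h * j := by simp
      _ ≤ (h + 1) * j := Nat.mul_le_mul_right _ (Nat.le_succ h)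
  let g : (Fin h → Fin j) → L := fun e => f 0 ^ ((h + 1) * j - ∑ i, (e i : ℕ)) *
    ∏ i, f i.succ ^ (e i : ℕ)
  have hg : ∀ e, g e = f 0 ^ ((h + 1) * j) * ∏ i, (f i.succ / f 0) ^ (e i : ℕ) := by
    intro e
    have h1 : f 0 ^ ((h + 1) * j) = f 0 ^ ((h + 1) * j - ∑ i, (e i : ℕ)) *
        ∏ i : Fin h, f 0 ^ (e i : ℕ) := by
      rw [Finset.prod_pow_eq_pow_sum, ← pow_add, Nat.sub_add_cancel (hsum e)]
    rw [h1, mul_assoc, ← Finset.prod_mul_distrib]
    refine congrArg _ (Finset.prod_congr rfl fun i _ => ?_)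
    rw [← mul_pow, mul_div_cancel₀ _ hf0]
  have hlin : LinearIndependent k g := by
    have h1 : LinearIndependent k fun s : Fin h →₀ ℕ =>
        MvPolynomial.aeval (fun i : Fin h => f i.succ / f 0) (MvPolynomial.monomial s (1 : k)) := by
      have h2 := (MvPolynomial.basisMonomials (Fin h) k).linearIndependent.map'
        (MvPolynomial.aeval (fun i : Fin h => f i.succ / f 0)).toLinearMap
        (LinearMap.ker_eq_bot.2 hind)
      simpa [Function.comp_def, MvPolynomial.coe_basisMonomials] using h2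
    have h3 : Function.Injective fun e : Fin h → Fin j =>
        (Finsupp.equivFunOnFinite.symm fun i => (e i : ℕ) : Fin h →₀ ℕ) := by
      intro e e' he
      have h4 := Finsupp.equivFunOnFinite.symm.injective he
      funext i
      exact Fin.ext (congrFun h4 i)
    have h4 := h1.comp _ h3
    have h5 := h4.map' (LinearMap.mulLeft k (f 0 ^ ((h + 1) * j)))
      (LinearMap.ker_eq_bot.2 (mul_right_injective₀ (pow_ne_zero _ hf0)))
    have h6 : g = (LinearMap.mulLeft k (f 0 ^ ((h + 1) * j))) ∘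
        ((fun s : Fin h →₀ ℕ => MvPolynomial.aeval (fun i : Fin h => f i.succ / f 0)
          (MvPolynomial.monomial s (1 : k))) ∘ fun e : Fin h → Fin j =>
        (Finsupp.equivFunOnFinite.symm fun i => (e i : ℕ) : Fin h →₀ ℕ)) := by
      funext e
      rw [hg]
      simp only [Function.comp_apply, LinearMap.mulLeft_apply, MvPolynomial.aeval_monomial,
        map_one, one_mul]
      rw [Finsupp.prod_fintype _ _ fun i => pow_zero _]
      rfl
    rw [h6]
    exact h5
  have hnz : ∀ e, g e ≠ 0 := fun e => hlin.ne_zero e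
  refine ⟨fun l => g (finFunctionFinEquiv.symm l),
    hlin.comp _ (Equiv.injective _), fun l v hv => ?_⟩
  obtain ⟨e, he⟩ : ∃ e, e = finFunctionFinEquiv.symm l := ⟨_, rfl⟩
  change _ ≤ v.ord (g (finFunctionFinEquiv.symm l))
  rw [← he]
  have key : Ge v (((h + 1) * j : ℕ) * -(m * α v)) (g e) := by
    have h0 : Ge v (-(m * α v)) (f 0) := hf 0 v hv
    have h1 := h0.pow ((h + 1) * j - ∑ i, (e i : ℕ))
    have h2 : Ge v (∑ i, (e i : ℕ) * -(m * α v)) (∏ i, f i.succ ^ (e i : ℕ)) := by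
      have h3 : ∀ s : Finset (Fin h), Ge v (∑ i ∈ s, ((e i : ℕ) : ℤ) * -(m * α v))
          (∏ i ∈ s, f i.succ ^ (e i : ℕ)) := by
        intro s
        induction s using Finset.induction_on with
        | empty => right; simp [v.ord_one]
        | insert a s ha ih =>
          rw [Finset.sum_insert ha, Finset.prod_insert ha]
          have h4 : Ge v (-(m * α v)) (f a.succ) := hf a.succ v hv
          exact (h4.pow (e a)).mul ih
      exact h3 Finset.univ
    have h3 := h1.mul h2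
    refine h3.mono (le_of_eq ?_)
    rw [← Finset.sum_mul, ← add_mul, ← Nat.cast_sum, ← Nat.cast_add,
      Nat.sub_add_cancel (hsum e)]
  have h1 := key.resolve_left (hnz e)
  refine le_trans (le_of_eq ?_) h1
  push_cast
  ring

/-- abundance implies the inequality -/
theorem cp_of_ab (h : Abk k L n) : CPk k L n := by
  intro r α l hr hP hA
  rcases h with h | ⟨h0, h1, h2⟩
  · exact absurd (kapa_tw hA) (cp_of_neg h hr (psr_tw hP))
  · rcases le_or_gt l h0 with hle | hlt
    · exact kod_mono hle h1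
    exfalso
    obtain ⟨S, m, hm, hS⟩ := cp_sections (psr_tw hP) (kapa_tw hA)
    obtain ⟨C, hC⟩ := h2 S
    set M := C * (m * r) ^ h0 with hM
    have h1 : ∀ j : ℕ, 1 ≤ j → 1 ≤ j * m * r → j ≤ M := by
      intro j hj hj'
      have h2 := hC (j * m * r) _ hj' (hS j hj)
      have h3 : j ^ (h0 + 1) ≤ j ^ l := Nat.pow_le_pow_right hj hlt
      have h4 : j ^ h0 * j ≤ j ^ h0 * M := by
        calc j ^ h0 * j = j ^ (h0 + 1) := (pow_succ _ _).symm
          _ ≤ C * (j * m * r) ^ h0 := h3.trans h2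
          _ = j ^ h0 * M := by rw [hM, mul_assoc j m r, mul_pow]; ring
      exact Nat.le_of_mul_le_mul_left h4 (Nat.pow_pos hj)
    have h2 := h1 (M + 1) (by omega) (Nat.one_le_iff_ne_zero.2
      (mul_ne_zero (mul_ne_zero (by omega) (by omega)) (by omega)))
    omega

/-- the growth of the sections bounds the Iitaka dimension -/
theorem le_of_num {h0 : ℕ} (h2 : NumLe k L n (fun _ => False) h0) {r : ℕ} {α : Place k L → ℤ}
    {l : ℕ} (hr : 1 ≤ r) (hP : Psr k L n r α) (hA : KapA k L n α l) : l ≤ h0 := by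
  by_contra hlt
  push Not at hlt
  obtain ⟨S, m, hm, hS⟩ := cp_sections (psr_tw hP) (kapa_tw hA)
  obtain ⟨C, hC⟩ := h2 S
  set M := C * (m * r) ^ h0 with hM
  have h1 : ∀ j : ℕ, 1 ≤ j → 1 ≤ j * m * r → j ≤ M := by
    intro j hj hj'
    have h2 := hC (j * m * r) _ hj' (hS j hj)
    have h3 : j ^ (h0 + 1) ≤ j ^ l := Nat.pow_le_pow_right hj hlt
    have h4 : j ^ h0 * j ≤ j ^ h0 * M := by
      calc j ^ h0 * j = j ^ (h0 + 1) := (pow_succ _ _).symm
        _ ≤ C * (j * m * r) ^ h0 := h3.trans h2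
        _ = j ^ h0 * M := by rw [hM, mul_assoc j m r, mul_pow]; ring
    exact Nat.le_of_mul_le_mul_left h4 (Nat.pow_pos hj)
  have h2 := h1 (M + 1) (by omega) (Nat.one_le_iff_ne_zero.2
    (mul_ne_zero (mul_ne_zero (by omega) (by omega)) (by omega)))
  omega

end

section

variable {k L Λ K : Type} [Field k] [CharZero k] [Field L] [Field Λ] [Field K] [Algebra k L]
  [Algebra k Λ] [Algebra k K] [Algebra Λ K] [IsScalarTower k Λ K] [Algebra L K]
  [IsScalarTower k L K] [Algebra.EssFiniteType k L]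

/-- the upper bound by the members of a covering family -/
theorem mem_cp {n c0 e : ℕ} (hn : Algebra.trdeg k L = n) (hΛ : Algebra.trdeg k Λ = c0)
    (he : Algebra.trdeg Λ K = e)
    (halg : ∀ x : K, IsAlgebraic (IntermediateField.adjoin Λ (Set.range (algebraMap L K))) x)
    (hI : CPk Λ K e) {r : ℕ} {α : Place k L → ℤ} {h : ℕ} (hr : 1 ≤ r) (hP : Psr k L n r α)
    (hA : KapA k L n α h) : ∃ h' : ℕ, h + e ≤ h' + n ∧ KodR Λ K e h' := by
  obtain ⟨β, hβ⟩ := exists_res (Λ := Λ) (K := K) α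
  obtain ⟨h', h1, h2⟩ := kap_res hn hΛ he halg hβ hA
  exact ⟨h', h1, hI r β h' hr (psr_res hn hΛ he halg hβ hP) h2⟩

end

section

variable {K : Type} [Field K] [Algebra ℂ K] {M F : IntermediateField ℂ K} {a b : ℕ} {L : Type}
  [Field L] [Algebra ℂ L] [Algebra L K] [IsScalarTower ℂ L K] [FiniteDimensional L K]
  [Algebra.EssFiniteType ℂ K]

/-- **Products: the bound.** -/
theorem prod_cp (ha : Algebra.trdeg ℂ F = a) (hb : Algebra.trdeg ℂ M = b)
    (hab : Algebra.trdeg ℂ K = (a + b : ℕ)) (hs : M ⊔ F = ⊤) (hI : CPk F K b)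
    {r : ℕ} {α : Place ℂ L → ℤ} {h : ℕ} (hr : 1 ≤ r) (hP : Psr ℂ L (a + b) r α)
    (hA : KapA ℂ L (a + b) α h) : ∃ h' : ℕ, h ≤ a + h' ∧ KodR ℂ M b h' := by
  have hLn : Algebra.trdeg ℂ L = (a + b : ℕ) :=
    (Pool.Agent.Y190.BV.trdeg_ext (k := ℂ) (K := L) (L := K)).symm.trans hab
  have hessL : Algebra.EssFiniteType ℂ L := Pool.Agent.TH466.QG.ess_below (K := K)
  have hFK := trdeg_over ha hab
  obtain ⟨h', h1, h2⟩ := mem_cp (k := ℂ) (L := L) (Λ := F) (K := K) hLn ha hFK
    (alg_fin F) hI hr hP hA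
  obtain ⟨y, t, Ey, Et, hZ, f', hpr⟩ := setup ha hb hab hs
  exact ⟨h', by omega, bc_down hpr f' hZ (fd_basis hZ) hFK h2⟩

/-- **Products: the transfer.** -/
theorem prod_cpk (ha : Algebra.trdeg ℂ F = a) (hb : Algebra.trdeg ℂ M = b)
    (hab : Algebra.trdeg ℂ K = (a + b : ℕ)) (hs : M ⊔ F = ⊤) (hI : CPk F K b)
    (hκ : ∀ h, KodR ℂ M b h → KodR ℂ L (a + b) (a + h)) : CPk ℂ L (a + b) := by
  intro r α h hr hP hA
  obtain ⟨h', h1, h2⟩ := prod_cp ha hb hab hs hI hr hP hA
  exact kod_mono h1 (hκ h' h2)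

/-- **Products with an abundant factor: the bound.** -/
theorem prod_ab (ha1 : 1 ≤ a) (ha : Algebra.trdeg ℂ F = a) (hb : Algebra.trdeg ℂ M = b)
    (hab : Algebra.trdeg ℂ K = (a + b : ℕ)) (hs : M ⊔ F = ⊤) (hM : Abk ℂ M b)
    {r : ℕ} {α : Place ℂ L → ℤ} {h : ℕ} (hr : 1 ≤ r) (hP : Psr ℂ L (a + b) r α)
    (hA : KapA ℂ L (a + b) α h) : ∃ h' : ℕ, h ≤ a + h' ∧ KodR ℂ M b h' := by
  have hLn : Algebra.trdeg ℂ L = (a + b : ℕ) :=
    (Pool.Agent.Y190.BV.trdeg_ext (k := ℂ) (K := L) (L := K)).symm.trans hab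
  have hessL : Algebra.EssFiniteType ℂ L := Pool.Agent.TH466.QG.ess_below (K := K)
  have hessF := Pool.Agent.N999.SX.ess_any F
  obtain ⟨y, t, Ey, Et, hZ, f, hpr⟩ := setup ha hb hab hs
  rcases hM with hM | ⟨h', h1, hM⟩
  · exfalso
    have h2 : NumNeg ℂ L (a + b) (fun _ => False) :=
      neg_down (K := K) hLn (neg_prod hpr f hZ (fd_basis hZ) hM)
    exact absurd (kapa_tw hA) (cp_of_neg h2 hr (psr_tw hP))
  · have hF : NumLe ℂ F a (fun _ => False) a := by
      obtain ⟨r, rfl⟩ : ∃ r, a = r + 1 := ⟨a - 1, by omega⟩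
      exact Pool.Agent.R885.num_top f.hy (fd_basis f.hy)
    have hK := num_prod hpr f hZ (fd_basis hZ) hF hM
    have hL : NumLe ℂ L (a + b) (fun _ => False) (a + h') := by
      rw [← numLe_iff] at hK ⊢
      refine Pool.Agent.L0h17.DN.num_down (K := K) hLn (fun Q P e h1 _ => ?_) hK
      have : (1 : ℚ) ≤ e := by exact_mod_cast h1.1
      linarith
    exact ⟨h', le_of_num hL hr hP hA, h1⟩

/-- **Products with an abundant factor.** -/
theorem ab_transfer {κ : Type} [Finite κ] {p : ℕ} {η : (Fin a → Derivation ℂ F F) → F}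
    {g : Fin a → F} {c : κ → F} (d : Dat L F M a b p η g c) (hM : Abk ℂ M b) :
    CPk ℂ L (a + b) := by
  intro r α h hr hP hA
  obtain ⟨h', h1, h2⟩ := prod_ab d.a1 d.ha d.hb d.hab d.hs hM hr hP hA
  exact kod_mono h1 (((transfer d).1 h').2 h2)

/-- **Finite images.** -/
theorem fin_cpk {n : ℕ} (hn : Algebra.trdeg ℂ L = n) {ι : Type} [Finite ι] {a : ι → K}
    (ha : Submodule.span L (Set.range a) = ⊤)
    (heff : ∃ M : ℕ, 1 ≤ M ∧ ∃ ω : (Fin n → Derivation ℂ K K) → K, IsPluri M ω ∧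
      (∃ D, ω D ≠ 0) ∧ ∀ Q : Place ℂ K, Divisorial n Q → ∀ i,
        RegAt Q (fun D => a i ^ (2 * M + 1) * ω D))
    (hI : CPk ℂ K n) : CPk ℂ L n := by
  obtain ⟨M, hM, ω, hω, hω0, hreg⟩ := heff
  have hessL : Algebra.EssFiniteType ℂ L := Pool.Agent.TH466.QG.ess_below (K := K)
  have hnK : Algebra.trdeg ℂ K = n := by
    rw [Pool.Agent.Y190.BV.trdeg_ext (k := ℂ) (K := L) (L := K), hn]
  have hc : Algebra.trdeg ℂ ℂ = (0 : ℕ) := by
    have h1 : Algebra.IsAlgebraic ℂ ℂ := inferInstance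
    rw [← trdeg_eq_zero_iff] at h1
    rw [h1]
    rfl
  intro r α h0 hr hP hA
  obtain ⟨h, h1, h2⟩ := mem_cp (k := ℂ) (L := L) (Λ := ℂ) (K := K) hn hc hnK (fun x => by
    have h1 : IsAlgebraic L x := Algebra.IsAlgebraic.isAlgebraic x
    have h2 : ∀ z : L, algebraMap L K z ∈
        IntermediateField.adjoin ℂ (Set.range (algebraMap L K)) := fun z =>
      IntermediateField.subset_adjoin _ _ ⟨z, rfl⟩
    exact h1.ringHom_of_comp_eq ((algebraMap L K).codRestrict
      (IntermediateField.adjoin ℂ (Set.range (algebraMap L K))) h2) (RingHom.id K)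
      (RingHom.injective _) rfl) hI hr hP hA
  obtain ⟨m, hm, hΦ⟩ := h2
  have h3 := iit_of_kod hΦ
  have h4 := iit_down (δ := fun _ => 0) (δ' := fun _ => 0) (fun Q P e _ _ => by simp) hω hω0
    (fun Q hQ i G hG => by
      have h5 : (-((M : ℚ) * 0)) = ((0 : ℤ) : ℚ) := by simp
      rw [h5]
      exact geQ_int.2 (hreg Q hQ i G hG)) hn ha h3
  exact kod_mono (by omega) (kod_of_iit (Nat.mul_pos (by omega) Module.finrank_pos) h4)

end

end Pool.Agent.L0h17.CP
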