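import Pool.Agent.L0h17.IT.Main

/-!
The restriction of a divisor and of sections of `j (r K - A) + H` to the members of a covering family.
-/

set_option autoImplicit false
set_option linter.overlappingInstances false
set_option linter.unusedSectionVars false

open FF IntermediateField Pool.Agent.W619.PQ Pool.Agent.W619.PL Pool.Agent.W619.TW
  Pool.Agent.W603.LV Pool.Agent.Y172
open Pool.Agent.W602.GT (Divisorial RegAt IsPluri DerReg exists_der)
open Pool.Agent.L0h17.TR (polys append_elim frame_of rcs rsb der_ind det_block ff ff_pluri ev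
  basis_in ext_basis alg_yr exists_TX exists_sel)
open Pool.Agent.L0h17.IT (moving append_map select)

namespace Pool.Agent.L0h17.CP

/-- `κ(A) ≥ h` -/
def KapA (k L : Type) [Field k] [Field L] [Algebra k L] (n : ℕ) (α : Place k L → ℤ) (h : ℕ) : Prop :=
  ∃ m : ℕ, 1 ≤ m ∧ ∃ f : Fin (h + 1) → L, f 0 ≠ 0 ∧
    (∀ l, ∀ v : Place k L, Divisorial n v → f l = 0 ∨ -(m * α v) ≤ v.ord (f l)) ∧
    AlgebraicIndependent k fun i : Fin h => f i.succ / f 0

/-- `r K - A` is pseudo-effective -/
def Psr (k L : Type) [Field k] [Field L] [Algebra k L] (n r : ℕ) (α : Place k L → ℤ) : Prop :=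
  ∃ S : Finset L, ∀ j : ℕ, 1 ≤ j → ∃ β : (Fin n → Derivation k L L) → L,
    IsPluri (j * r) β ∧ (∃ D, β D ≠ 0) ∧
    ∀ v : Place k L, Divisorial n v → ∀ D : Fin n → Derivation k L L, (∀ i, DerReg v (D i)) →
      β D = 0 ∨ ∃ s ∈ S, s ≠ 0 ∧ j * α v + v.ord s ≤ v.ord (β D)

section

variable {k R K : Type} [Field k] [CharZero k] [Field R] [Field K] [Algebra k R] [Algebra k K]
  [Algebra R K] [IsScalarTower k R K] [Algebra.EssFiniteType k R] {a n : ℕ}

theorem over_unique {Q : Place k K} {P P' : Place k R} {e e' : ℕ} (h : Over Q P e)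
    (h' : Over Q P' e') : e = e' ∧ P = P' := by
  obtain ⟨t, -, ht⟩ := P.surj
  obtain ⟨t', -, ht'⟩ := P'.surj
  have h1 := h.2 t
  have h2 := h'.2 t
  rw [h1, ht, mul_one] at h2
  have h3 := h'.2 t'
  have h4 := h.2 t'
  rw [h3, ht', mul_one] at h4
  have h5 : e = e' := by
    apply Nat.dvd_antisymm
    · have : (e : ℤ) ∣ e' := ⟨_, h4⟩
      exact_mod_cast this
    · have : (e' : ℤ) ∣ e := ⟨_, h2⟩
      exact_mod_cast this
  refine ⟨h5, ?_⟩
  subst h5
  have h6 : P.ord = P'.ord := by
    funext f
    have h7 := h.2 f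
    rw [h'.2 f] at h7
    have h8 : (e : ℤ) ≠ 0 := by exact_mod_cast h.1.ne'
    exact (mul_left_cancel₀ h8 h7).symm
  cases P
  cases P'
  simp only at h6
  subst h6
  rfl

/-- pull-backs of forms with poles, evaluated on vector fields which are regular on the functions of
the base: the divisors which dominate the base -/
theorem pull_triv {w : ℕ} {y : Fin a → R} {E : Fin a → Derivation k R R}
    {α : (Fin a → Derivation k R R) → R} {Q : Place k K}
    (htriv : ∀ f : R, Q.ord (algebraMap R K f) = 0) {D : Fin a → Derivation k K K}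
    (hD : ∀ i (f : R), Q.Reg (algebraMap R K f) → Q.Reg (D i (algebraMap R K f))) :
    Ge Q 0 ((Matrix.of fun i j => D i (algebraMap R K (y j))).det ^ w * algebraMap R K (α E)) := by
  classical
  have h0 : ∀ f : R, Q.Reg (algebraMap R K f) := fun f => Or.inr (htriv f).ge
  have h9 : Ge Q 0 (Matrix.of fun i j => D i (algebraMap R K (y j)) :
      Matrix (Fin a) (Fin a) K).det :=
    Pool.Agent.W619.PQ.ge_det Q _ fun a b => hD a _ (h0 _)
  have h10 := h9.pow w
  rw [mul_zero] at h10
  have h3 : Ge Q 0 (algebraMap R K (α E)) := h0 _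
  have h4 := h10.mul h3
  rwa [zero_add] at h4

/-- pull-backs of forms with poles, evaluated on vector fields which are regular on the functions of
the base: the other divisors -/
theorem pull_over (ha : Algebra.trdeg k R = a) {y : Fin a → R}
    (hy : IsTranscendenceBasis k y) {E : Fin a → Derivation k R R}
    (hE : ∀ i j, E i (y j) = if i = j then 1 else 0) {w : ℕ}
    {α : (Fin a → Derivation k R R) → R} (hα : IsPluri w α) {Q : Place k K} {P : Place k R}
    {e : ℕ} (hP : Over Q P e) (hPd : Divisorial a P) {b : ℤ}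
    (hreg : ∀ D : Fin a → Derivation k R R, (∀ i, DerReg P (D i)) → Ge P b (α D))
    {D : Fin a → Derivation k K K}
    (hD : ∀ i (f : R), Q.Reg (algebraMap R K f) → Q.Reg (D i (algebraMap R K f))) :
    Ge Q (e * b) ((Matrix.of fun i j => D i (algebraMap R K (y j))).det ^ w *
      algebraMap R K (α E)) := by
  classical
  obtain ⟨yP, EP, i0, hl⟩ := exists_loc ha hPd
  have h1 := Pool.Agent.W73.PG.PULL.form_eq (L := K) y yP hy hl.bas E EP hE hl.dual
    (m := w) α hα D
  rw [h1]
  have h2 : Ge P b (α EP) := hreg EP hl.pres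
  have h9 : Ge Q 0 (Matrix.of fun a c => D a (algebraMap R K (yP c)) :
      Matrix (Fin a) (Fin a) K).det :=
    Pool.Agent.W619.PQ.ge_det Q _ fun a b => hD a _ (hP.reg.2 (hl.reg b))
  have h10 := h9.pow w
  rw [mul_zero] at h10
  have h3 : Ge Q (e * b) (algebraMap R K (α EP)) := by
    rcases h2 with h2 | h2
    · left
      rw [h2, map_zero]
    · right
      rw [hP.2]
      exact mul_le_mul_of_nonneg_left h2 (Int.natCast_nonneg e)
  have h4 := h10.mul h3
  rwa [zero_add] at h4

end

section

variable {k R Λ K : Type} [Field k] [CharZero k] [Field R] [Field Λ] [Field K] [Algebra k R]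
  [Algebra k Λ] [Algebra k K] [Algebra Λ K] [IsScalarTower k Λ K] [Algebra R K]
  [IsScalarTower k R K] [Algebra.EssFiniteType k R] {c0 j q m : ℕ}

/-- the divisor `β` on the members is the restriction of the divisor `α` -/
def IsRes (α : Place k R → ℤ) (β : Place Λ K → ℤ) : Prop :=
  ∀ Q : Place Λ K, ((∀ f : R, Q.ord (algebraMap R K f) = 0) → β Q = 0) ∧
    ∀ (P : Place k R) (e : ℕ), 0 < e → (∀ f : R, Q.ord (algebraMap R K f) = e * P.ord f) →
      β Q = e * α P

theorem exists_res (α : Place k R → ℤ) : ∃ β : Place Λ K → ℤ, IsRes α β := by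
  classical
  have key : ∀ Q : Place Λ K, ∃ b : ℤ, ((∀ f : R, Q.ord (algebraMap R K f) = 0) → b = 0) ∧
    ∀ (P : Place k R) (e : ℕ), 0 < e → (∀ f : R, Q.ord (algebraMap R K f) = e * P.ord f) →
      b = e * α P := by
    intro Q
    by_cases htriv : ∃ f : R, Q.ord (algebraMap R K f) ≠ 0
    · obtain ⟨e, P, hP⟩ := exists_over (K := R) (rcs k Q) htriv
      refine ⟨e * α P, fun h => ?_, fun P' e' he' hP' => ?_⟩
      · obtain ⟨f, hf⟩ := htriv
        exact absurd (h f) hf
      · obtain ⟨h1, h2⟩ := over_unique hP (⟨he', hP'⟩ : Over (rcs k Q) P' e')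
        rw [h1, h2]
    · push Not at htriv
      refine ⟨0, fun _ => rfl, fun P e he hP => ?_⟩
      exfalso
      obtain ⟨t, -, ht⟩ := P.surj
      have h1 := hP t
      rw [htriv t, ht] at h1
      omega
  choose β hβ using key
  exact ⟨β, hβ⟩

theorem div_rcs {r : Fin c0 → Λ} (hr : IsTranscendenceBasis k r) {Q : Place Λ K}
    (hQ : Divisorial (m + 1) Q) : Divisorial (m + c0 + 1) (rcs k Q) := by
  obtain ⟨u, hu⟩ := hQ
  exact ⟨Fin.append u (fun i => algebraMap Λ K (r i)), fun p hp => polys hr.1 hu p hp⟩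

/-- the restriction of a form of `W` to the members of the family -/
theorem star_tw {r : Fin c0 → Λ} (hr : IsTranscendenceBasis k r)
    (htr : Algebra.trdeg Λ K = (m + 1 : ℕ))
    {y' : Fin j → R} {y'' : Fin q → R}
    {E : Fin (j + q) → Derivation k R R}
    {p : ℕ} {α : (Fin (j + q) → Derivation k R R) → R}
    {T : Matrix (Fin j) (Fin q) K} {X : Matrix (Fin c0) (Fin q) K}
    (hTX : ∀ (H : Derivation k K K) l, H (algebraMap R K (y'' l)) =
      ∑ i, H (algebraMap R K (y' i)) * T i l + ∑ i, H (algebraMap Λ K (r i)) * X i l)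
    (s : Fin q → Fin c0) {Q : Place Λ K} (hQ : Divisorial (m + 1) Q) {c : ℤ}
    (hpull : ∀ D : Fin (j + q) → Derivation k K K,
      (∀ i (f : R), Q.Reg (algebraMap R K f) → Q.Reg (D i (algebraMap R K f))) →
      Ge Q c ((Matrix.of fun i l => D i
        (algebraMap R K ((Fin.append y' y'' : Fin (j + q) → R) l))).det ^ p *
        algebraMap R K (α E)))
    {D₁ : Fin j → Derivation Λ K K} (hD₁ : ∀ i, DerReg Q (D₁ i)) :
    Ge Q c (((Matrix.of fun a b => D₁ a (algebraMap R K (y' b))).det *
      (X.submatrix s id).det) ^ p * algebraMap R K (α E)) := by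
  classical
  obtain ⟨Dm, hDm, hDr⟩ := moving (R := R) hr htr hQ
  have h1 := hpull (Fin.append (fun i => (D₁ i).restrictScalars k) (fun l => Dm (s l)))
    (fun i f hf => by
      refine Fin.addCases (fun a => ?_) (fun b => ?_) i
      · rw [Fin.append_left]
        exact hD₁ a _ hf
      · rw [Fin.append_right]
        exact hDr _ f hf)
  have h2 := det_block (k := k) (K := K) (y' := fun i => algebraMap R K (y' i))
    (y'' := fun l => algebraMap R K (y'' l)) (r := fun i => algebraMap Λ K (r i)) hTX s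
    (D₁ := fun i => (D₁ i).restrictScalars k) (fun i a => (D₁ i).map_algebraMap (r a))
    (D₂ := fun l => Dm (s l)) (fun l a => hDm (s l) a)
  have h3 : (Matrix.of fun i b => (Fin.append (fun i => (D₁ i).restrictScalars k)
      (fun l => Dm (s l)) i : Derivation k K K)
        (algebraMap R K ((Fin.append y' y'' : Fin (j + q) → R) b)) :
      Matrix (Fin (j + q)) (Fin (j + q)) K) =
      Matrix.of fun a b => (Fin.append (fun i => (D₁ i).restrictScalars k)
        (fun l => Dm (s l)) a : Derivation k K K)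
      ((Fin.append (fun i => algebraMap R K (y' i)) (fun l => algebraMap R K (y'' l)) :
        Fin (j + q) → K) b) := by
    ext a b
    rw [Matrix.of_apply, Matrix.of_apply, append_map (algebraMap R K)]
  rw [h3, h2] at h1
  exact h1

end

section

variable {k R Λ K : Type} [Field k] [CharZero k] [Field R] [Field Λ] [Field K] [Algebra k R]
  [Algebra k Λ] [Algebra k K] [Algebra Λ K] [IsScalarTower k Λ K] [Algebra R K]
  [IsScalarTower k R K] [Algebra.EssFiniteType k R]

theorem pos_of_place {e : ℕ} (he : Algebra.trdeg Λ K = e) (P : Place Λ K) : 1 ≤ e := by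
  by_contra h0
  have h1 : e = 0 := by omega
  rw [h1] at he
  have h2 : Algebra.IsAlgebraic Λ K := by
    rw [← trdeg_eq_zero_iff]
    simpa using he
  obtain ⟨t, ht0, ht⟩ := P.surj
  exact P.transcendental_of_ord_ne (by omega) (h2.isAlgebraic t)

/-- the Iitaka dimension of the restriction of a divisor -/
theorem kap_res {m c0 e h : ℕ} (hm : Algebra.trdeg k R = m) (hΛ : Algebra.trdeg k Λ = c0)
    (he : Algebra.trdeg Λ K = e)
    (halg : ∀ x : K, IsAlgebraic (IntermediateField.adjoin Λ (Set.range (algebraMap R K))) x)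
    {α : Place k R → ℤ} {β : Place Λ K → ℤ} (hres : IsRes α β) (hk : KapA k R m α h) :
    ∃ h', h + e ≤ h' + m ∧ KapA Λ K e β h' := by
  classical
  obtain ⟨w, hw, f, hf0, hf, hind⟩ := hk
  obtain ⟨r, -, hr, -⟩ := Pool.Agent.Y944.NT.exists_crd (k := k) hΛ
  obtain ⟨h', l, hh', hli⟩ := select (Λ := Λ) (K := K) hm he halg hind
  let ι : Fin (h' + 1) → Fin (h + 1) := Fin.cases 0 fun i => (l i).succ
  refine ⟨h', by omega, w, hw, fun i => algebraMap R K (f (ι i)),
    (map_ne_zero (algebraMap R K)).2 hf0, fun i Q hQ => ?_, ?_⟩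
  · obtain ⟨m0, rfl⟩ : ∃ m0, e = m0 + 1 := ⟨e - 1, by have := pos_of_place he Q; omega⟩
    by_cases htriv : ∃ f : R, Q.ord (algebraMap R K f) ≠ 0
    · obtain ⟨e', P, hP⟩ := exists_over (K := R) (rcs k Q) htriv
      have htK : Algebra.trdeg k K = (m0 + c0 + 1 : ℕ) := by
        rw [← _root_.trdeg_add_eq k Λ (A := K), he, hΛ]
        push_cast
        ring
      have hPd : Divisorial m P := Pool.Agent.W619.Y.pDIVR k R K m _ P (rcs k Q) e' hm htK hP
        (div_rcs hr hQ)
      have h1 := (hres Q).2 P e' hP.1 hP.2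
      rcases hf (ι i) P hPd with h2 | h2
      · left
        change algebraMap R K (f (ι i)) = 0
        rw [h2, map_zero]
      · right
        change _ ≤ Q.ord (algebraMap R K (f (ι i)))
        have h3 : Q.ord (algebraMap R K (f (ι i))) = e' * P.ord (f (ι i)) := hP.2 _
        rw [h3, h1]
        have h4 := mul_le_mul_of_nonneg_left h2 (Int.natCast_nonneg e')
        linarith
    · push Not at htriv
      right
      change _ ≤ Q.ord (algebraMap R K (f (ι i)))
      rw [htriv, (hres Q).1 htriv]
      simp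
  · have h1 : (fun i : Fin h' => algebraMap R K (f (ι i.succ)) / algebraMap R K (f (ι 0))) =
        fun i => algebraMap R K (f (l i).succ / f 0) := by
      funext i
      rw [map_div₀]
      rfl
    rw [h1]
    exact hli

/-- **the restriction of `r K - A`** -/
theorem psr_res {m c0 e r : ℕ} (hm : Algebra.trdeg k R = m) (hΛ : Algebra.trdeg k Λ = c0)
    (he : Algebra.trdeg Λ K = e)
    (halg : ∀ x : K, IsAlgebraic (IntermediateField.adjoin Λ (Set.range (algebraMap R K))) x)
    {α : Place k R → ℤ} {β : Place Λ K → ℤ} (hres : IsRes α β) (hk : Psr k R m r α) :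
    Psr Λ K e r β := by
  classical
  have hΛ0 : CharZero Λ := charZero_of_injective_algebraMap (algebraMap k Λ).injective
  obtain ⟨ρ, -, hr, -⟩ := Pool.Agent.Y944.NT.exists_crd (k := k) hΛ
  have hj : Algebra.trdeg Λ (IntermediateField.adjoin Λ (Set.range (algebraMap R K))) = e := by
    have h1 := trdeg_add_eq Λ (IntermediateField.adjoin Λ (Set.range (algebraMap R K))) (A := K)
    have h2 : Algebra.IsAlgebraic (IntermediateField.adjoin Λ (Set.range (algebraMap R K))) K :=
      ⟨halg⟩
    have h3 : Algebra.trdeg (IntermediateField.adjoin Λ (Set.range (algebraMap R K))) K = 0 :=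
      trdeg_eq_zero_iff.2 h2
    rw [h3, add_zero, he] at h1
    exact h1
  obtain ⟨yK, hyR, hyind, hyalg⟩ := basis_in (k := Λ) (Set.range (algebraMap R K)) hj
  choose y' hy' using hyR
  have hyK : (fun i => algebraMap R K (y' i)) = yK := funext hy'
  have hind : AlgebraicIndependent Λ (fun i => algebraMap R K (y' i)) := by rw [hyK]; exact hyind
  have hindC : AlgebraicIndependent k y' := by
    have h1 : AlgebraicIndependent k (fun i => algebraMap R K (y' i)) :=
      hind.restrictScalars (algebraMap k Λ).injective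
    exact AlgebraicIndependent.of_comp (IsScalarTower.toAlgHom k R K) h1
  obtain ⟨q, hq, y'', hy⟩ := ext_basis hm hindC
  subst hq
  have hy'' : ∀ l, IsAlgebraic
      (IntermediateField.adjoin k (Set.range (Fin.append (fun i => algebraMap R K (y' i))
        (fun i => algebraMap Λ K (ρ i)) : Fin (e + c0) → K))) (algebraMap R K (y'' l)) := by
    intro l
    refine alg_yr hr ?_
    rw [hyK]
    exact hyalg _ (IntermediateField.subset_adjoin _ _ ⟨_, rfl⟩)
  obtain ⟨E, hE⟩ := Pool.Agent.Y173.QA.exists_duals hy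
  have hzind : AlgebraicIndependent k (Fin.append (fun i => algebraMap R K (y' i))
      (fun i => algebraMap Λ K (ρ i)) : Fin (e + c0) → K) := by
    have h1 := hr.1.sumElim_comp hind
    have h2 := h1.comp (finSumFinEquiv (m := e) (n := c0)).symm (Equiv.injective _)
    rw [Pool.Agent.L0h17.TR.append_elim]
    exact h2
  obtain ⟨T, X, hTX⟩ := exists_TX (k := k) (y'' := fun l => algebraMap R K (y'' l)) hzind hy''
  have hyK' : AlgebraicIndependent k (Fin.append (fun i => algebraMap R K (y' i))
      (fun l => algebraMap R K (y'' l)) : Fin (e + q) → K) := by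
    have h1 := hy.1.map' (f := IsScalarTower.toAlgHom k R K)
      (IsScalarTower.toAlgHom k R K).injective
    have h2 : (Fin.append (fun i => algebraMap R K (y' i))
      (fun l => algebraMap R K (y'' l)) : Fin (e + q) → K) =
      (IsScalarTower.toAlgHom k R K) ∘ (Fin.append y' y'') := by
      funext i
      exact (append_map (algebraMap R K) y' y'' i).symm
    rw [h2]
    exact h1
  obtain ⟨s, hs⟩ := exists_sel hTX hyK'
  obtain ⟨G0, hG0⟩ : ∃ G0 : Fin e → Derivation Λ K K,
      ∀ i j, G0 i (algebraMap R K (y' j)) = if i = j then 1 else 0 := by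
    choose G hG using fun i : Fin e => der_ind hind (fun j => if i = j then 1 else 0)
    exact ⟨G, hG⟩
  let F : Fin e → Derivation Λ K K →ₗ[K] K := fun i => ev Λ (algebraMap R K (y' i))
  have hdet : (Matrix.of fun a b => F b (G0 a) : Matrix (Fin e) (Fin e) K).det = 1 := by
    have h1 : (Matrix.of fun a b => F b (G0 a) : Matrix (Fin e) (Fin e) K) = 1 := by
      ext a b
      rw [Matrix.of_apply, Matrix.one_apply]
      exact hG0 a b
    rw [h1, Matrix.det_one]
  obtain ⟨S, hS⟩ := hk
  refine ⟨insert 1 (S.image (algebraMap R K)), fun j hj1 => ?_⟩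
  obtain ⟨Φ, hΦ, ⟨D, hD⟩, hb⟩ := hS j hj1
  have hE0 : Φ E ≠ 0 := Pool.Agent.L0h17.DN.ne_frame hΦ hD hy hE
  obtain ⟨μ, hμ⟩ : ∃ μ : K, μ = (X.submatrix s id).det ^ (j * r) * algebraMap R K (Φ E) :=
    ⟨_, rfl⟩
  refine ⟨ff F (j * r) μ, ff_pluri F _ _, ⟨G0, ?_⟩, fun Q hQ G hG => ?_⟩
  · unfold ff
    rw [hdet, one_pow, one_mul, hμ]
    exact mul_ne_zero (pow_ne_zero _ hs) ((map_ne_zero (algebraMap R K)).2 hE0)
  · obtain ⟨m0, rfl⟩ : ∃ m0, e = m0 + 1 := ⟨e - 1, by have := pos_of_place he Q; omega⟩
    have h4 : ff F (j * r) μ G = ((Matrix.of fun a b => G a (algebraMap R K (y' b))).det *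
      (X.submatrix s id).det) ^ (j * r) * algebraMap R K (Φ E) := by
      unfold ff
      have h5 : (Matrix.of fun a b => F b (G a) : Matrix (Fin (m0 + 1)) (Fin (m0 + 1)) K) =
        Matrix.of fun a b => G a (algebraMap R K (y' b)) := rfl
      rw [h5, mul_pow, hμ]
      ring
    by_cases htriv : ∃ f : R, Q.ord (algebraMap R K f) ≠ 0
    · obtain ⟨e', P, hP⟩ := exists_over (K := R) (rcs k Q) htriv
      have htK : Algebra.trdeg k K = (m0 + c0 + 1 : ℕ) := by
        rw [← _root_.trdeg_add_eq k Λ (A := K), he, hΛ]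
        push_cast
        ring
      have hPd : Divisorial (m0 + 1 + q) P := Pool.Agent.W619.Y.pDIVR k R K _ _ P (rcs k Q) e' hm
        htK hP (div_rcs hr hQ)
      have h1 := (hres Q).2 P e' hP.1 hP.2
      obtain ⟨s0, hs0, hs00, hmin⟩ : ∃ s0 ∈ insert 1 (S.image (algebraMap R K)), s0 ≠ 0 ∧
          ∃ t : R, algebraMap R K t = s0 ∧
          ∀ D : Fin (m0 + 1 + q) → Derivation k R R, (∀ i, DerReg P (D i)) →
            Ge P (j * α P + P.ord t) (Φ D) := by
        by_cases hne : (S.filter (· ≠ 0)).Nonempty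
        · obtain ⟨t, ht, hmin⟩ := Finset.exists_min_image _ P.ord hne
          rw [Finset.mem_filter] at ht
          refine ⟨algebraMap R K t, Finset.mem_insert_of_mem
            (Finset.mem_image_of_mem _ ht.1), (map_ne_zero (algebraMap R K)).2 ht.2, t, rfl,
            fun D hD => ?_⟩
          rcases hb P hPd D hD with h5 | ⟨s', hs', hs'0, h5⟩
          · exact Or.inl h5
          · right
            have h6 := hmin s' (Finset.mem_filter.2 ⟨hs', hs'0⟩)
            linarith
        · refine ⟨1, Finset.mem_insert_self _ _, one_ne_zero, 1, map_one _, fun D hD => ?_⟩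
          rcases hb P hPd D hD with h5 | ⟨s', hs', hs'0, h5⟩
          · exact Or.inl h5
          · exact absurd ⟨s', Finset.mem_filter.2 ⟨hs', hs'0⟩⟩ hne
      obtain ⟨t, ht, hmin⟩ := hmin
      have h2 := star_tw (R := R) (α := Φ) (E := E) (p := j * r) hr he hTX s hQ
        (c := e' * (j * α P + P.ord t)) (fun D hD => pull_over (k := k) (K := K) hm hy hE hΦ
          (Q := rcs k Q) hP hPd hmin (D := D) hD) hG
      rw [← h4] at h2
      rcases h2 with h2 | h2
      · exact Or.inl h2
      · right
        refine ⟨s0, hs0, hs00, le_trans (le_of_eq ?_) h2⟩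
        have h7 : Q.ord s0 = e' * P.ord t := by
          rw [← ht]
          exact hP.2 t
        rw [h1, h7]
        ring
    · push Not at htriv
      have h2 := star_tw (R := R) (α := Φ) (E := E) (p := j * r) hr he hTX s hQ
        (c := 0) (fun D hD => pull_triv (k := k) (K := K) (Q := rcs k Q) htriv hD) hG
      rw [← h4] at h2
      rcases h2 with h2 | h2
      · exact Or.inl h2
      · right
        refine ⟨1, Finset.mem_insert_self _ _, one_ne_zero, ?_⟩
        rw [(hres Q).1 htriv, Q.ord_one]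
        simpa using h2

end

end Pool.Agent.L0h17.CP
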